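import Pool.Agent.H12.KSJ.Targets

/-!
# Surjectivity, row BADG (helper12)
-/

open CategoryTheory TopologicalSpace Opposite AlgebraicGeometry Limits
open Pool.Agent.H62.MK Pool.Agent.H84.KEW Pool.Agent.H19.KN
open Pool.Agent.H17.KW (kap Pts)
open Pool.Agent.H17.KE (coheight_lt_of_specializes)
open Pool.Agent.H12.KG (Sp GenSp kA stA rho projStr)
open Pool.Agent.H15.KEW (prm prm_le_iff)

universe u

namespace Pool.Agent.H12.KSJ

theorem pts_lt_top {X : Scheme.{u}} {d s : ℕ} (v : Pts X d s) : Order.coheight v.1 < ⊤ := by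
  have hv := v.2
  by_contra hne
  rw [not_lt_top_iff.1 hne, top_add] at hv
  exact ENat.top_ne_natCast _ hv

theorem badg_finite (X : Scheme.{u}) [IsNoetherian X] (d s : ℕ) (w : Pts X d (s + 1)) (k : ℕ)
    (a : Fin k → (kap X w.1)ˣ) : {v : Pts X d s | ∃ i, v.1 ∈ bad w.1 (a i)}.Finite := by
  have hbig : (⋃ i, {z : X | z ∈ bad w.1 (a i) ∧
      ∀ z' ∈ bad w.1 (a i), z' ⤳ z → z' = z}).Finite :=
    Set.finite_iUnion fun i => finite_minimal' X _ (isClosed_bad' w.1 (a i))
  refine Set.Finite.of_injOn (f := fun w : Pts X d s => w.1) ?_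
    (fun a _ b _ hab => Subtype.ext hab) hbig
  intro v hv
  obtain ⟨i, hi⟩ := hv
  refine Set.mem_iUnion.2 ⟨i, hi, ?_⟩
  have hw2 := v.2
  have hv2 := w.2
  refine minimal_of_mem_bad w.1 (a i) v.1 (pts_lt_top v) (le_of_eq ?_)
  have h4 : Order.coheight v.1 + (s : ℕ∞) = (Order.coheight w.1 + 1) + (s : ℕ∞) := by
    have h5 : Order.coheight w.1 + 1 + (s : ℕ∞) = Order.coheight w.1 + ((s + 1 : ℕ) : ℕ∞) := by
      push_cast
      rw [add_assoc, add_comm (1 : ℕ∞)]
    exact hw2.trans (hv2.symm.trans h5.symm)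
  exact WithTop.add_right_cancel (ENat.natCast_ne_top s) h4

theorem pf_BADG : T_BADG.{u} := by
  classical
  intro X _ d s w v y hv k a
  have hfin := badg_finite X d s w k a
  have key : ∀ v' : Pts X d s, ∃ g : X.presheaf.stalk y, rho hv g ≠ 0 ∧
      ∀ h' : v'.1 ⤳ y, v' ≠ v → rho h' g = 0 := by
    intro v'
    by_cases hc : ∃ _ : v'.1 ⤳ y, v' ≠ v
    · obtain ⟨h', hne⟩ := hc
      have h1 : ¬ prm h' ≤ prm hv := by
        intro hle
        have h2 := (prm_le_iff h' hv).1 hle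
        have h3 := coheight_lt_of_specializes h2 (fun e => hne (Subtype.ext e)) (pts_lt_top v)
        have h4 : Order.coheight v'.1 + (s : ℕ∞) = Order.coheight v.1 + (s : ℕ∞) := by
          rw [v'.2, v.2]
        exact h3.ne (WithTop.add_right_cancel (ENat.natCast_ne_top s) h4)
      have h5 : ∃ g ∈ (prm h').asIdeal, g ∉ (prm hv).asIdeal := by
        by_contra hcon
        push Not at hcon
        exact h1 hcon
      obtain ⟨g, hg1, hg2⟩ := h5
      exact ⟨g, hg2, fun _ _ => hg1⟩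
    · refine ⟨1, ?_, fun h' hne => absurd ⟨h', hne⟩ hc⟩
      rw [map_one]
      exact one_ne_zero
  choose g hg1 hg2 using key
  refine ⟨∏ v' ∈ hfin.toFinset, g v', ?_, ?_⟩
  · rw [map_prod]
    exact Finset.prod_ne_zero_iff.2 fun v' _ => hg1 v'
  · intro v' h' hne hb
    rw [map_prod]
    exact Finset.prod_eq_zero (hfin.mem_toFinset.2 hb) (hg2 v' h' hne)

end Pool.Agent.H12.KSJ
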