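import Pool.Agent.H12.KSJ.Targets
import Pool.Agent.H15.KEW.G5

/-!
# Surjectivity, row DLX (helper12)
-/

open CategoryTheory TopologicalSpace Opposite AlgebraicGeometry Limits
open Pool.Agent.H62.MK Pool.Agent.H84.KEW Pool.Agent.H19.KN
open Pool.Agent.H17.KW (kap Pts)
open Pool.Agent.H12.KG (Sp GenSp kA stA rho projStr)

universe u

namespace Pool.Agent.H12.KSJ

theorem pf_DLX : T_DLX.{u} := by
  intro A _ X f π e hdim
  have hdim' : ∀ x : X, Order.coheight x ≤ ((e + 1 : ℕ) : ℕ∞) + 1 := by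
    intro x
    refine (hdim x).trans (le_of_eq ?_)
    push_cast
    rw [add_assoc, one_add_one_eq_two]
  have hspec := Pool.Agent.H15.KEW.dl_spec (d := e + 1) hdim'
  refine ⟨fun x y h hne => Pool.Agent.H15.KEW.dl_lt (d := e + 1) hdim' x y h hne, ?_, ?_, ?_⟩
  · intro s v
    obtain ⟨k, hk, hk'⟩ := hspec v.1
    have hv := v.2
    have hk2 : k + dl (X := X) (e + 1) v.1 = e + 1 + 1 := hk'
    rw [hk] at hv
    have hv' : k + s = e + 1 := by exact_mod_cast hv
    omega
  · intro s x _ hs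
    obtain ⟨k, hk, hk'⟩ := hspec x
    have hk2 : k + dl (X := X) (e + 1) x = e + 1 + 1 := hk'
    rw [hk]
    have : k + s = e + 2 := by omega
    exact_mod_cast this
  · have h := (Pool.Agent.H15.KEW.isOpen_not_sp f π).isClosed_compl
    have h2 : {x : X | ¬ Sp f π x}ᶜ = Ysp f π := by
      ext x
      exact not_not
    rw [h2] at h
    exact h

end Pool.Agent.H12.KSJ
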