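import Pool.Agent.H12.KSJ.Asm3
import Pool.Agent.H12.KSJ.BADG
import Pool.Agent.H12.KSJ.DLX
import Pool.Agent.H74.KSJ.ISY
import Pool.Agent.H14.KSJ.NSM
import Pool.Agent.H14.KEW.Epi
import Pool.Agent.H19.KSJ.NQX
import Pool.Agent.H19.KSJ.SMA
import Pool.Agent.H19.KSJ.SMS
import Pool.Agent.H19.KSJ.SMT
import Pool.Agent.H35.KSJ.ISZ
import Pool.Agent.H4.KSJ.RDV
import Pool.Agent.H68.KSJ.PIG
import Pool.Agent.H68.KSJ.R1U
import Pool.Agent.H7.KSJ.NRM1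
import Pool.Agent.H81.KSJ.FRAC
import Pool.Agent.H84.KSJ.HEX
import Pool.Agent.H84.KSJ.ISO
import Pool.Agent.H84.KSJ.LOCDD
import Pool.Agent.H84.KSJ.NUX

/-!
# Surjectivity of the restriction map (helper12)
-/

open CategoryTheory TopologicalSpace Opposite AlgebraicGeometry Limits
open Pool.Agent.H17.KW (Gersten IsProjectiveOver res)

universe u

namespace Pool.Agent.H12.KSJ

theorem done_BADG : T_BADG.{u} := pf_BADG
theorem done_R1U : T_R1U.{u} := Pool.Agent.H68.KSJ.pf_R1U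
theorem done_RDV : T_RDV.{u} := Pool.Agent.H4.KSJ.pf_RDV Pool.Agent.H7.KSJ.pf_NRM1
theorem done_SMT : T_SMT.{u} :=
  Pool.Agent.H19.KSJ.pf_SMT (Pool.Agent.H19.KSJ.pf_SMA done_R1U) Pool.Agent.H81.KSJ.pf_FRAC
    Pool.Agent.H14.KSJ.pf_NSM Pool.Agent.H19.KSJ.pf_NQX
theorem done_SMS : T_SMS.{u} :=
  Pool.Agent.H19.KSJ.pf_SMS done_RDV done_R1U Pool.Agent.H81.KSJ.pf_FRAC
    Pool.Agent.H68.KSJ.pf_PIG done_BADG

/-- **Surjectivity** of the restriction map `CH^(e+1)(X) / q → H^(e+1)(X_n, K^M_(e+1) / q)`. -/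
theorem res_surjective {A : Type u} [CommRing A] [IsDomain A] [IsDiscreteValuationRing A]
    [HenselianLocalRing A] [CharZero A] {X : Scheme.{u}} [IsNoetherian X]
    (f : X ⟶ Spec (CommRingCat.of A)) (e : ℕ) [SmoothOfRelativeDimension (e + 1) f]
    (hf : IsProjectiveOver f) (h : Gersten X e) (q n : ℕ) (hq : 1 ≤ q) (hn : 1 ≤ n) :
    Function.Surjective (res f q n h) :=
  surjective_res done_SMT done_SMS (Pool.Agent.H84.KSJ.pf_ISO Pool.Agent.H74.KSJ.pf_ISY) Pool.Agent.H35.KSJ.pf_ISZ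
    Pool.Agent.H84.KSJ.pf_NUX Pool.Agent.H84.KSJ.pf_HEX Pool.Agent.H84.KSJ.pf_LOCDD pf_DLX f e hf h
    q n hq hn

end Pool.Agent.H12.KSJ
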