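import Pool.Agent.H12.KSJ.Targets
import Pool.Agent.H15.KEW.Asm3
import Pool.Agent.H19.KEW.Dvr2
import Pool.Agent.H84.KEW.Sur2

/-!
# Surjectivity of the restriction map: assembly, second part (helper12)
-/

open CategoryTheory TopologicalSpace Opposite AlgebraicGeometry Limits
open Pool.Agent.H62.MK Pool.Agent.H84.KEW Pool.Agent.H19.KN Pool.Agent.H19.KEW
open Pool.Agent.H17.KW (kap Pts entry column dFam D dD Gersten topSh KSh redSh thick thickι Fsh AbSh
  cycK IsProjectiveOver res resCH resCyc toModQ ModQ CH Cyc toSec secH)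
open Pool.Agent.H12.KG (Sp GenSp kA stA rho projStr)
open Pool.Agent.H15.KEW (prm prm_inj prm_le_iff adjoin_one mkCH quasiSober_top coheight_le_of_smooth)

universe u

namespace Pool.Agent.H12.KSJ

noncomputable section

variable {A : Type u} [CommRing A] {X : Scheme.{u}}

/-- The sheaves of the Gersten complex are acyclic. -/
lemma acyclic_D (X : Scheme.{u}) [IsNoetherian X] (d s i : ℕ) :
    Subsingleton (Sheaf.H (D X d s) (i + 1)) :=
  t_flasque X.toTopCat (D X d s) i (isFlasque_E _ _)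

lemma res_mk [IsLocalRing A] [IsNoetherian X] (f : X ⟶ Spec (CommRingCat.of A))
    (e q n : ℕ) (h : Gersten X e) (c : Cyc X (e + 1)) :
    res f q n h (toModQ q (CH X e) (mkCH X e c)) = resCyc f q n h c := rfl

lemma resCyc_apply [IsLocalRing A] [IsNoetherian X] (f : X ⟶ Spec (CommRingCat.of A))
    (e q n : ℕ) (h : Gersten X e) (c : Cyc X (e + 1)) :
    resCyc f q n h c = Sheaf.H.map (redSh (thickι f n) q (e + 1)) (e + 1)
        (h.cyc _ (secH X (D X (e + 1) 0) (toSec X (e + 1) c))) := rfl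


lemma exists_cyc [IsNoetherian X] (e : ℕ) (x : Sheaf.H (D X (e + 1) 0) 0) :
    ∃ c : Cyc X (e + 1), secH X (D X (e + 1) 0) (toSec X (e + 1) c) = x := by
  obtain ⟨s, hs⟩ := (Sheaf.H.equiv₀ (D X (e + 1) 0) (T := (⊤ : Opens X.toTopCat))
    isTerminalTop).symm.surjective x
  exact ⟨(show (E (X := X.toTopCat) (fun v : Pts X (e + 1) 0 => (v.1 : X))
      (fun v => MilnorK (kap X v.1) 0)).sec ⊤ from s).1, hs⟩

end

end Pool.Agent.H12.KSJ
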