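import Pool.Agent.H84.KEW.Coh

/-!
# Surjectivity of the restriction map: abstract part, definitions and target (helper12)

Level `s` families live at points of `δ = s + 1` outside the closed set `Y` (horizontal points);
at the points `y ∈ Y` with `δ y = s` a subgroup `R s y` of the families of level `s` is given.
-/

open CategoryTheory TopologicalSpace Opposite Abelian Pool.Agent.H84.KEW

universe u

namespace Pool.Agent.H12.KSJ

noncomputable section

section defs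

variable {X : TopCat.{u}} {ι : ℕ → Type u} (p : ∀ s, ι s → X) (A : ∀ s, ι s → Type u)
  [∀ s i, AddCommGroup (A s i)]

/-- The conditions of level `s` at the point `y`: none unless `y ∈ Y` and `δ y = s`. -/
def PS (Y : Set X) (δ : X → ℕ) (R : ∀ s, X → AddSubgroup (Π₀ i, A s i)) (s : ℕ) (y : X) :
    AddSubgroup (Π₀ i, A s i) where
  carrier := {c | y ∈ Y → δ y = s → c ∈ R s y}
  zero_mem' := fun _ _ => zero_mem _
  add_mem' := fun ha hb h1 h2 => add_mem (ha h1 h2) (hb h1 h2)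
  neg_mem' := fun ha h1 h2 => neg_mem (ha h1 h2)

/-- The families satisfying the conditions of level `s` at all generizations of `y`. -/
def Cond (Y : Set X) (δ : X → ℕ) (R : ∀ s, X → AddSubgroup (Π₀ i, A s i)) (s : ℕ) (y : X) :
    AddSubgroup (Π₀ i, A s i) where
  carrier := {c | ∀ y', y' ⤳ y → gen (p s) (A s) y' c ∈ PS A Y δ R s y'}
  zero_mem' := fun y' _ => by rw [map_zero]; exact zero_mem _
  add_mem' := fun ha hb y' h => by rw [map_add]; exact add_mem (ha y' h) (hb y' h)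
  neg_mem' := fun ha y' h => by rw [map_neg]; exact neg_mem (ha y' h)

/-- The data: horizontal families, the differential, and the recursively defined conditions. -/
structure SData (dF : ∀ s, (Π₀ i, A (s + 1) i) →+ (Π₀ i, A s i)) (Y : Set X) (δ : X → ℕ) (e : ℕ)
    (R : ∀ s, X → AddSubgroup (Π₀ i, A s i)) : Prop where
  loc : ∀ s, IsLocalHom (p (s + 1)) (p s) (dF s)
  dd : ∀ s f, dF s (dF (s + 1) f) = 0
  strict : ∀ x y : X, x ⤳ y → x ≠ y → δ y < δ x
  closed : IsClosed Y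
  hor : ∀ s i, p s i ∉ Y
  dim : ∀ s i, δ (p s i) = s + 1
  step : ∀ s, s ≤ e → ∀ y ∈ Y, δ y = s →
    R s y = (Cond p A Y δ R (s + 1) y).map ((gen (p s) (A s) y).comp (dF s))
  iso : ∀ s, s ≤ e + 1 → ∀ y ∈ Y, δ y = s → ∀ f : Π₀ i, A s i, ∃ f' : Π₀ i, A s i,
    gen (p s) (A s) y (f' - f) ∈ R s y ∧
    ∀ y' ∈ Y, δ y' = s → y' ≠ y → gen (p s) (A s) y' f' ∈ R s y'
  ex : ∀ s, s < e → ∀ x, x ∉ Y → ∀ f : Π₀ i, A (s + 1) i, gen (p (s + 1)) (A (s + 1)) x f = f →
    gen (p s) (A s) x (dF s f) = 0 →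
    ∃ g : Π₀ i, A (s + 2) i, gen (p (s + 1)) (A (s + 1)) x (dF (s + 1) g) = f
  ex0 : ∀ x, x ∉ Y → ∀ f : Π₀ i, A 0 i, gen (p 0) (A 0) x f = f →
    ∃ g : Π₀ i, A 1 i, gen (p 0) (A 0) x (dF 0 g) = f

end defs

section germs

variable {X : TopCat.{u}} [NoetherianSpace X] {ι : Type u} (p : ι → X) (A : ι → Type u)
  [∀ i, AddCommGroup (A i)] {N : Shf X}

/-- The family of a section of `N` under a morphism to the sheaf of all families. -/
def famOf (ν : N ⟶ (E p A).sheaf) {U : Opens X} (c : N.obj.obj (op U)) : Π₀ i, A i :=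
  (show (E p A).sec U from ν.hom.app (op U) c).1

lemma famOf_add (ν : N ⟶ (E p A).sheaf) {U : Opens X} (c c' : N.obj.obj (op U)) :
    famOf p A ν (c + c') = famOf p A ν c + famOf p A ν c' := by
  unfold famOf
  rw [map_add]
  rfl

lemma famOf_neg (ν : N ⟶ (E p A).sheaf) {U : Opens X} (c : N.obj.obj (op U)) :
    famOf p A ν (-c) = -famOf p A ν c := by
  unfold famOf
  rw [map_neg]
  rfl

lemma famOf_zero (ν : N ⟶ (E p A).sheaf) {U : Opens X} :
    famOf p A ν (0 : N.obj.obj (op U)) = 0 := by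
  unfold famOf
  rw [map_zero]
  rfl

lemma famOf_res (ν : N ⟶ (E p A).sheaf) {U V : Opens X} (h : V ≤ U) (c : N.obj.obj (op U)) :
    famOf p A ν (N.obj.map (homOfLE h).op c) = keep p A V (famOf p A ν c) := by
  have h1 := ConcreteCategory.congr_hom (ν.hom.naturality (homOfLE h).op) c
  exact congrArg Subtype.val h1

/-- The germs at `y` of the sections of `N`, as families. -/
def nuGerms (ν : N ⟶ (E p A).sheaf) (y : X) : AddSubgroup (Π₀ i, A i) where
  carrier := {f | ∃ (U : Opens X) (_ : y ∈ U) (c : N.obj.obj (op U)),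
    gen p A y (famOf p A ν c) = f}
  zero_mem' := ⟨⊤, trivial, 0, by rw [famOf_zero, map_zero]⟩
  add_mem' := by
    rintro a b ⟨U, hU, f, rfl⟩ ⟨V, hV, g, rfl⟩
    refine ⟨U ⊓ V, ⟨hU, hV⟩, N.obj.map (homOfLE inf_le_left).op f +
      N.obj.map (homOfLE inf_le_right).op g, ?_⟩
    rw [famOf_add, famOf_res, famOf_res, map_add, gen_keep p (show y ∈ U ⊓ V from ⟨hU, hV⟩),
      gen_keep p (show y ∈ U ⊓ V from ⟨hU, hV⟩)]
  neg_mem' := by
    rintro a ⟨U, hU, f, rfl⟩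
    exact ⟨U, hU, -f, by rw [famOf_neg, map_neg]⟩

end germs

/-- NV: the abstract vanishing theorem `H^(e+2)(N) = 0`. -/
def T_NV : Prop :=
  ∀ (X : TopCat.{u}) [NoetherianSpace X] [T0Space X] [QuasiSober X]
    (ι : ℕ → Type u) (p : ∀ s, ι s → X) (A : ∀ s, ι s → Type u) [∀ s i, AddCommGroup (A s i)]
    (dF : ∀ s, (Π₀ i, A (s + 1) i) →+ (Π₀ i, A s i)) (Y : Set X) (δ : X → ℕ) (e : ℕ)
    (R : ∀ s, X → AddSubgroup (Π₀ i, A s i)), SData p A dF Y δ e R →
    ∀ (N : Shf X) (ν : N ⟶ (E (p (e + 1)) (A (e + 1))).sheaf) [Mono ν],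
    (∀ (U : Opens X) (c : N.obj.obj (op U)), ∀ x ∈ U,
      gen (p e) (A e) x (dF e (famOf (p (e + 1)) (A (e + 1)) ν c)) = 0) →
    (∀ x, x ∉ Y → ∀ f : Π₀ i, A (e + 1) i, gen (p (e + 1)) (A (e + 1)) x f = f →
      gen (p e) (A e) x (dF e f) = 0 → f ∈ nuGerms (p (e + 1)) (A (e + 1)) ν x) →
    (∀ y ∈ Y, δ y = e + 1 → R (e + 1) y = nuGerms (p (e + 1)) (A (e + 1)) ν y) →
    Subsingleton (Sheaf.H N (e + 2))

/-- EXR: the subgroups `R` exist. -/
def T_EXR : Prop :=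
  ∀ (X : TopCat.{u}) (ι : ℕ → Type u) (p : ∀ s, ι s → X) (A : ∀ s, ι s → Type u)
    [∀ s i, AddCommGroup (A s i)]
    (dF : ∀ s, (Π₀ i, A (s + 1) i) →+ (Π₀ i, A s i)) (Y : Set X) (δ : X → ℕ) (e : ℕ)
    (top : X → AddSubgroup (Π₀ i, A (e + 1) i)),
    ∃ R : ∀ s, X → AddSubgroup (Π₀ i, A s i), R (e + 1) = top ∧
      ∀ s, s ≤ e → ∀ y, R s y = (Cond p A Y δ R (s + 1) y).map ((gen (p s) (A s) y).comp (dF s))

end

end Pool.Agent.H12.KSJ
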