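import Pool.Agent.H12.KSJ.Targets
import Pool.Agent.H84.KEW.NV
import Pool.Agent.H84.KEW.EXR
import Pool.Agent.H19.KEW.Dvr2
import Pool.Agent.H15.KEW.Asm3

/-!
# Surjectivity of the restriction map: assembly (helper12)
-/

open CategoryTheory TopologicalSpace Opposite AlgebraicGeometry Limits
open Pool.Agent.H62.MK Pool.Agent.H84.KEW Pool.Agent.H19.KN Pool.Agent.H19.KEW
open Pool.Agent.H17.KW (kap Pts entry column dFam D dD Gersten topSh KSh redSh thick thickι Fsh AbSh
  cycK IsProjectiveOver res resCH resCyc toModQ ModQ CH Cyc toSec secH)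
open Pool.Agent.H12.KG (Sp GenSp kA stA rho projStr)
open Pool.Agent.H15.KEW (prm prm_inj prm_le_iff adjoin_one mkCH quasiSober_top coheight_le_of_smooth)

universe u

namespace Pool.Agent.H12.KSJ

noncomputable section

variable {A : Type u} [CommRing A] {X : Scheme.{u}}

/-- A point of codimension one has a unique proper generization, and the local ring in its residue
field is a discrete valuation ring. -/
lemma codim_one [IsDomain A] [IsDiscreteValuationRing A] (f : X ⟶ Spec (CommRingCat.of A))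
    [Smooth f] (y : X) (hy : Order.coheight y = 1) (w : X) (h : w ⤳ y) (hw : w ≠ y) :
    IsDiscreteValuationRing (rho h).range ∧ ∀ w' : X, w' ⤳ y → w' ≠ y → w' = w := by
  have hdom := stalk_domain f y
  have key : ∀ (w : X) (h : w ⤳ y), w ≠ y → (prm h).asIdeal = ⊥ := by
    intro w h hw
    have h1 : Order.coheight w < Order.coheight y :=
      Pool.Agent.H17.KE.coheight_lt_of_specializes h hw (by rw [hy]; exact ENat.natCast_lt_top 1)
    have h2 : Order.coheight w = 0 := by
      rw [hy] at h1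
      exact Order.lt_one_iff.1 h1
    rw [coheight_prm h] at h2
    have h3 := (Ideal.height_eq_zero_iff (I := (prm h).asIdeal)).1 h2
    rw [IsDomain.minimalPrimes_eq_singleton_bot] at h3
    exact h3
  have huniq : ∀ w' : X, w' ⤳ y → w' ≠ y → w' = w := by
    intro w' h' hw'
    refine prm_inj h' h (PrimeSpectrum.ext ?_)
    rw [key w' h' hw', key w h hw]
  refine ⟨?_, huniq⟩
  obtain ⟨w0, h0, h1, h2⟩ := dvr_chain (j := 0) f y (by rw [hy]; norm_num)
  have h3 : w0 ≠ y := by
    rintro rfl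
    rw [hy] at h1
    norm_num at h1
  have h4 := huniq w0 h0 h3
  subst h4
  exact h2

/-- The conditions (SM) hold at all levels. -/
lemma sms_all [IsDomain A] [IsDiscreteValuationRing A] (hT : T_SMT.{u}) (hS : T_SMS.{u})
    [IsNoetherian X] (f : X ⟶ Spec (CommRingCat.of A)) [Smooth f] (π : A) (hπ : Irreducible π)
    (e q n : ℕ) (hq : 1 ≤ q) (hn : 1 ≤ n) (h : Gersten X e)
    (hdim : ∀ x : X, Order.coheight x ≤ e + 2)
    (R : ∀ s, X.toTopCat → AddSubgroup (Π₀ v : HPts f π (e + 1) s, AH f π (e + 1) s v))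
    (hR : ∀ y, R (e + 1) y = nuG f π q e n y) (hrec : ∀ s, s ≤ e → Rec f π (e + 1) R s) :
    ∀ m, m ≤ e → SMs f π (e + 1) R m := by
  have key : ∀ j, j ≤ e → SMs f π (e + 1) R (e - j) := by
    intro j
    induction j with
    | zero =>
      intro _
      exact hT A X f π hπ e q n hq hn h hdim (codim_one f) R hR
    | succ j ih =>
      intro hj
      have h1 := ih (by omega)
      obtain ⟨m, hm⟩ : ∃ m, e - (j + 1) = m := ⟨_, rfl⟩
      have hm1 : e - j = m + 1 := by omega
      rw [hm1] at h1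
      rw [hm]
      refine hS A X f π e m (by omega) hdim ?_ R (hrec (m + 1) (by omega)) h1
      intro v
      have hv := v.1.2
      obtain ⟨k, hk⟩ : ∃ k, e = m + 1 + k := ⟨e - (m + 1), by omega⟩
      have hv2 : Order.coheight v.1.1 = (k + 1 : ℕ) := by
        have h3 : Order.coheight v.1.1 + ((m + 1 : ℕ) : ℕ∞) =
            ((k + 1 : ℕ) : ℕ∞) + ((m + 1 : ℕ) : ℕ∞) := by
          rw [hv, hk]
          norm_cast
          omega
        exact WithTop.add_right_cancel (ENat.natCast_ne_top (m + 1)) h3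
      obtain ⟨w, hw, hw1, hw2⟩ := dvr_chain f v.1.1 k hv2
      have hw3 : Order.coheight w + ((m + 2 : ℕ) : ℕ∞) = ((e + 1 : ℕ) : ℕ∞) := by
        rw [hw1, hk]
        norm_cast
        omega
      exact ⟨⟨⟨w, hw3⟩, fun hsp => v.2 (Pool.Agent.H15.KEW.Sp.mono hw hsp)⟩, hw, hw2⟩
  intro m hm
  have h1 := key (e - m) (by omega)
  have h2 : e - (e - m) = m := by omega
  rwa [h2] at h1

/-- The cohomology of the kernel vanishes. -/
theorem kernel_vanish [IsDomain A] [IsDiscreteValuationRing A] (hT : T_SMT.{u}) (hS : T_SMS.{u})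
    (hI : T_ISO.{u}) (hZ : T_ISZ.{u}) (hN : T_NUX.{u}) (hE : T_HEX.{u}) (hL : T_LOCDD.{u})
    (hD : T_DLX.{u}) [IsNoetherian X] (f : X ⟶ Spec (CommRingCat.of A)) [Smooth f] (π : A)
    (hπ : Irreducible π) (e q n : ℕ) (hq : 1 ≤ q) (hn : 1 ≤ n) (h : Gersten X e)
    (hdim : ∀ x : X, Order.coheight x ≤ e + 2) (hW : WAp f π)
    (hU : ∀ z : X, ¬ Sp f π z → (∀ x : X, z ⤳ x → x ≠ z → IsClosed ({x} : Set X)) →
      ∃! x : X, z ⤳ x ∧ IsClosed ({x} : Set X)) :
    Subsingleton (Sheaf.H (NSh f q e n) (e + 2)) := by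
  have hqs := quasiSober_top X
  have hT0 : T0Space X.toTopCat := inferInstanceAs (T0Space X)
  obtain ⟨R, hRtop, hRrec⟩ := pf_EXR X.toTopCat (fun s => HPts f π (e + 1) s)
    (fun s => pH f π (e + 1) s) (fun s => AH f π (e + 1) s) (fun s => dH f π (e + 1) s)
    (Ysp f π) (dl (X := X) (e + 1)) e (fun y => nuG f π q e n y)
  have hR : ∀ y, R (e + 1) y = nuG f π q e n y := fun y => congrFun hRtop y
  have hrec : ∀ s, s ≤ e → Rec f π (e + 1) R s := fun s hs y _ _ => hRrec s hs y
  have hsm := sms_all hT hS f π hπ e q n hq hn h hdim R hR hrec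
  obtain ⟨hd1, hd2, -, hd4⟩ := hD A X f π e hdim
  obtain ⟨hl1, -, hl3⟩ := hL A X f π e h
  have hgen : ∀ v : Pts X (e + 1) (e + 1), ¬ Sp f π v.1 := by
    intro v
    refine not_sp_of_coheight f hπ.ne_zero v.1 ?_
    have hv : Order.coheight v.1 + ((e + 1 : ℕ) : ℕ∞) = 0 + ((e + 1 : ℕ) : ℕ∞) := by
      rw [v.2, zero_add]
    exact WithTop.add_right_cancel (ENat.natCast_ne_top (e + 1)) hv
  obtain ⟨hn1, hn2, hn3⟩ := hN A X f π hπ e q n hn hgen h
  have hSD : SData (X := X.toTopCat) (fun s => pH f π (e + 1) s) (fun s => AH f π (e + 1) s)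
      (fun s => dH f π (e + 1) s) (Ysp f π) (dl (X := X) (e + 1)) e R :=
    { loc := hl1
      dd := hl3
      strict := hd1
      closed := hd4
      hor := fun s i => i.2
      dim := fun s i => hd2 s i.1
      step := fun s hs y hy hs' => hrec s hs y hy hs'
      iso := by
        intro s hs y hy hys g
        cases s with
        | zero => exact hZ A X f π e hdim hU R y hy hys g
        | succ m => exact hI A X f π e m (by omega) hdim hW R (hsm m (by omega)) y hy hys g
      ex := fun s hs x hx => (hE A X f π e h x hx).1 s hs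
      ex0 := fun x hx => (hE A X f π e h x hx).2 }
  exact pf_NV X.toTopCat (fun s => HPts f π (e + 1) s) (fun s => pH f π (e + 1) s)
    (fun s => AH f π (e + 1) s) (fun s => dH f π (e + 1) s) (Ysp f π) (dl (X := X) (e + 1)) e R hSD
    (NSh f q e n) (nuSh f π q e n) hn2 hn3 (fun y _ _ => hR y)

end

end Pool.Agent.H12.KSJ
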