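import Pool.Agent.H12.KSJ.Asm
import Pool.Agent.H12.KSJ.Asm2
import Pool.Agent.H12.KG.Final
import Pool.Agent.H84.KEW.Sur2

/-!
# Surjectivity of the restriction map: assembly, third part (helper12)
-/

open CategoryTheory TopologicalSpace Opposite AlgebraicGeometry Limits
open Pool.Agent.H62.MK Pool.Agent.H84.KEW Pool.Agent.H19.KN Pool.Agent.H19.KEW
open Pool.Agent.H17.KW (kap Pts entry column dFam D dD Gersten topSh KSh redSh thick thickι Fsh AbSh
  cycK IsProjectiveOver res resCH resCyc toModQ ModQ CH Cyc toSec secH)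
open Pool.Agent.H12.KG (Sp GenSp kA stA rho projStr)
open Pool.Agent.H15.KEW (prm prm_inj prm_le_iff adjoin_one mkCH quasiSober_top coheight_le_of_smooth)

universe u

namespace Pool.Agent.H12.KSJ

noncomputable section

variable {A : Type u} [CommRing A] {X : Scheme.{u}}

/-- Every class in the target is the restriction of a cycle. -/
theorem surjective_resCyc [IsLocalRing A] [IsNoetherian X] (f : X ⟶ Spec (CommRingCat.of A))
    (e q n : ℕ) (h : Gersten X e) [Epi (redSh (thickι f n) q (e + 1))]
    (hN : Subsingleton (Sheaf.H (NSh f q e n) (e + 2))) (y : Sheaf.H (Fsh f q (e + 1) n) (e + 1)) :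
    ∃ c, resCyc f q n h c = y := by
  obtain ⟨x, hx⟩ := sur_final h (fun s i => acyclic_D X (e + 1) s i)
    (redSh (thickι f n) q (e + 1)) hN y
  obtain ⟨c, hc⟩ := exists_cyc e x
  refine ⟨c, ?_⟩
  rw [resCyc_apply, hc]
  exact hx

/-- The restriction map is surjective if the cohomology of the kernel vanishes. -/
theorem surjective_of_vanish [IsLocalRing A] [IsNoetherian X] (f : X ⟶ Spec (CommRingCat.of A))
    (e q n : ℕ) (h : Gersten X e) [Epi (redSh (thickι f n) q (e + 1))]
    (hN : Subsingleton (Sheaf.H (NSh f q e n) (e + 2))) : Function.Surjective (res f q n h) := by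
  intro y
  obtain ⟨c, hc⟩ := surjective_resCyc f e q n h hN y
  exact ⟨toModQ q (CH X e) (mkCH X e c), (res_mk f e q n h c).trans hc⟩

attribute [local instance] MvPolynomial.gradedAlgebra in
/-- **Surjectivity** of the restriction map, from the targets. -/
theorem surjective_res (hT : T_SMT.{u}) (hS : T_SMS.{u})
    (hI : T_ISO.{u}) (hZ : T_ISZ.{u}) (hN : T_NUX.{u}) (hE : T_HEX.{u}) (hL : T_LOCDD.{u})
    (hD : T_DLX.{u}) [IsDomain A] [IsDiscreteValuationRing A] [HenselianLocalRing A]
    [CharZero A] [IsNoetherian X] (f : X ⟶ Spec (CommRingCat.of A)) (e : ℕ)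
    [SmoothOfRelativeDimension (e + 1) f] (hf : IsProjectiveOver f) (h : Gersten X e) (q n : ℕ)
    (hq : 1 ≤ q) (hn : 1 ≤ n) : Function.Surjective (res f q n h) := by
  have hdim : ∀ x : X, Order.coheight x ≤ e + 2 := by
    intro x
    have h1 := coheight_le_of_smooth f (e + 1) x
    refine h1.trans (le_of_eq ?_)
    push_cast
    rw [add_assoc, one_add_one_eq_two]
  have hsm : Smooth f := SmoothOfRelativeDimension.smooth (n := e + 1) f
  obtain ⟨π, hπ⟩ := IsDiscreteValuationRing.exists_irreducible A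
  refine surjective_of_vanish f e q n h ?_
  obtain ⟨N, i, hi, hif⟩ := hf
  have hif' : f = i ≫ projStr (MvPolynomial.homogeneousSubmodule (Fin (N + 1)) A) := hif.symm
  subst hif'
  refine kernel_vanish hT hS hI hZ hN hE hL hD _ π hπ e q n hq hn h hdim ?_ ?_
  · intro n' hn' w hw H hH
    exact Pool.Agent.H12.KG.done_WA1X A _ (MvPolynomial.homogeneousSubmodule (Fin (N + 1)) A)
      (MvPolynomial.homogeneousSubmodule_fg (Fin (N + 1)) A 1) (adjoin_one A N) X i hi π hπ n' hn' w hw
      H hH
  · exact (Pool.Agent.H12.KG.done_UCX A _ (MvPolynomial.homogeneousSubmodule (Fin (N + 1)) A)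
      (MvPolynomial.homogeneousSubmodule_fg (Fin (N + 1)) A 1) (adjoin_one A N) X i hi π hπ).2.2

end

end Pool.Agent.H12.KSJ
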