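import Pool.Agent.H12.KSJ.Targets
import Pool.Agent.H15.KEW.G5

/-!
# Surjectivity, row ISY (helper12)
-/

open CategoryTheory TopologicalSpace Opposite AlgebraicGeometry Limits
open Pool.Agent.H62.MK Pool.Agent.H84.KEW Pool.Agent.H19.KN
open Pool.Agent.H17.KW (kap Pts)
open Pool.Agent.H12.KG (Sp GenSp kA stA rho projStr)
open Pool.Agent.H15.KEW (rho_stA genSp_finite genSp_of_coheight)

universe u

namespace Pool.Agent.H12.KSJ

theorem isy_mono {A : Type u} [CommRing A] {X : Scheme.{u}} (f : X ⟶ Spec (CommRingCat.of A))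
    (π : A) {v y : X} (h : v ⤳ y) {M N : ℕ} (hMN : M ≤ N) (c : X.presheaf.stalk y) :
    ∃ c' : X.presheaf.stalk y, kA f v π ^ N * rho h c = kA f v π ^ M * rho h c' := by
  refine ⟨stA f y π ^ (N - M) * c, ?_⟩
  rw [map_mul, map_pow, rho_stA, ← mul_assoc, ← pow_add]
  congr 2
  omega

theorem isy_gen {A : Type u} [CommRing A] {X : Scheme.{u}} (f : X ⟶ Spec (CommRingCat.of A))
    (π : A) (e m : ℕ) (hdim : ∀ x : X, Order.coheight x ≤ e + 2) (v : HPts f π (e + 1) (m + 1))
    (y : X) (h : v.1.1 ⤳ y) (hy : Sp f π y) (hd : dl (X := X) (e + 1) y = m + 1) :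
    GenSp f π v.1.1 y := by
  have hdim' : ∀ x : X, Order.coheight x ≤ ((e + 1 : ℕ) : ℕ∞) + 1 := by
    intro x
    refine (hdim x).trans (le_of_eq ?_)
    push_cast
    rw [add_assoc, one_add_one_eq_two]
  obtain ⟨k, hk, hk'⟩ := Pool.Agent.H15.KEW.dl_spec (d := e + 1) hdim' v.1.1
  obtain ⟨l, hl, hl'⟩ := Pool.Agent.H15.KEW.dl_spec (d := e + 1) hdim' y
  have hl2 : l + dl (X := X) (e + 1) y = e + 1 + 1 := hl'
  have hv := v.1.2
  rw [hk] at hv
  have hv' : k + (m + 1) = e + 1 := by exact_mod_cast hv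
  refine genSp_of_coheight f π h v.2 hy hk ?_
  rw [hl]
  have : l ≤ k + 1 := by omega
  exact_mod_cast this

theorem isy_inst {ι : Type u} {β : ι → Type u} [∀ i, AddCommGroup (β i)]
    {D : DecidableEq ι} {D' : DecidableEq ι} {i : ι} {b : β i} (H : AddSubgroup (Π₀ i, β i))
    (h : @DFinsupp.single ι β _ D i b ∈ H) : @DFinsupp.single ι β _ D' i b ∈ H := by
  have e : D' = D := Subsingleton.elim _ _
  subst e
  exact h

/-- A uniform bound in (SM) for the points over `w`. -/
theorem isy_bound {A : Type u} [CommRing A] {X : Scheme.{u}} [IsNoetherian X]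
    (f : X ⟶ Spec (CommRingCat.of A)) (π : A) (e m : ℕ)
    (hdim : ∀ x : X, Order.coheight x ≤ e + 2)
    (R : ∀ s, X.toTopCat → AddSubgroup (Π₀ v : HPts f π (e + 1) s, AH f π (e + 1) s v))
    (hsm : SMs f π (e + 1) R m) [DecidableEq (HPts f π (e + 1) (m + 1))]
    (w : HPts f π (e + 1) (m + 1)) (a : Fin m → (X.residueField w.1.1)ˣ) :
    ∃ B : ℕ, ∀ M, B ≤ M → ∀ (y' : X) (h' : w.1.1 ⤳ y'), Sp f π y' →
      dl (X := X) (e + 1) y' = m + 1 →
      ∀ (u : (X.residueField w.1.1)ˣ) (g' : Fin m → (X.residueField w.1.1)ˣ),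
      (∃ c : X.presheaf.stalk y', (u : X.residueField w.1.1) = 1 + kA f w.1.1 π ^ M * rho h' c) →
      (∀ i, ∃ c : X.presheaf.stalk y',
        (g' i : X.residueField w.1.1) = a i * (1 + kA f w.1.1 π ^ M * rho h' c)) →
      DFinsupp.single (β := fun v : HPts f π (e + 1) (m + 1) => AH f π (e + 1) (m + 1) v) w
        (cup u (sym g')) ∈ R (m + 1) y' := by
  have key : ∀ y' : X, ∃ M : ℕ, ∀ (h' : w.1.1 ⤳ y'), Sp f π y' →
      dl (X := X) (e + 1) y' = m + 1 →
      ∀ (u : (X.residueField w.1.1)ˣ) (g' : Fin m → (X.residueField w.1.1)ˣ),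
      (∃ c : X.presheaf.stalk y', (u : X.residueField w.1.1) = 1 + kA f w.1.1 π ^ M * rho h' c) →
      (∀ i, ∃ c : X.presheaf.stalk y',
        (g' i : X.residueField w.1.1) = a i * (1 + kA f w.1.1 π ^ M * rho h' c)) →
      DFinsupp.single (β := fun v : HPts f π (e + 1) (m + 1) => AH f π (e + 1) (m + 1) v) w
        (cup u (sym g')) ∈ R (m + 1) y' := by
    intro y'
    by_cases h : w.1.1 ⤳ y' ∧ Sp f π y' ∧ dl (X := X) (e + 1) y' = m + 1
    · obtain ⟨M, hM⟩ := hsm w y' h.1 h.2.1 h.2.2 a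
      refine ⟨M, fun h' _ _ u g' hu hg' => ?_⟩
      exact isy_inst _ (hM u g' hu hg')
    · exact ⟨0, fun h' h2 h3 => absurd ⟨h', h2, h3⟩ h⟩
  choose N hN using key
  obtain ⟨B, hB⟩ := ((genSp_finite f π w.1.1).image N).bddAbove
  refine ⟨B, fun M hM => ?_⟩
  intro y' h' hy' hdl u g' hu hg'
  have hgen : GenSp f π w.1.1 y' := isy_gen f π e m hdim w y' h' hy' hdl
  have hle : N y' ≤ M := (hB ⟨y', hgen, rfl⟩).trans hM
  refine hN y' h' hy' hdl u g' ?_ fun i => ?_
  · obtain ⟨c, hc⟩ := hu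
    obtain ⟨c', hc'⟩ := isy_mono f π h' hle c
    exact ⟨c', by rw [hc, hc']⟩
  · obtain ⟨c, hc⟩ := hg' i
    obtain ⟨c', hc'⟩ := isy_mono f π h' hle c
    exact ⟨c', by rw [hc, hc']⟩

theorem pf_ISY : T_ISY.{u} := by
  intro A _ X _ f π e m hm hdim hWA R hSM _ v y hvy hyS hdy g
  choose By hBy using fun i : Fin (m + 1) =>
    isy_bound f π e m hdim R hSM v (fun j => g (i.succAbove j))
  obtain ⟨B1, hB1⟩ := isy_bound f π e m hdim R hSM v (fun _ => 1)
  let M : ℕ := 1 + (B1 + ∑ i, By i)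
  have hM1 : 1 ≤ M := Nat.le_add_right _ _
  have hMB : B1 ≤ M := by
    have : B1 ≤ B1 + ∑ i, By i := Nat.le_add_right _ _
    omega
  have hMy : ∀ i, By i ≤ M := by
    intro i
    have h1 : By i ≤ ∑ i, By i := Finset.single_le_sum (fun _ _ => Nat.zero_le _)
      (Finset.mem_univ i)
    omega
  classical
  choose g' hg'0 hg' using fun i : Fin (m + 1) => hWA M hM1 v.1.1 v.2
    (fun z => if z = y then ((g i : (X.residueField v.1.1)ˣ) : X.residueField v.1.1) else 1)
    (fun z => by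
      split_ifs
      · exact (g i).ne_zero
      · exact one_ne_zero)
  let G : Fin (m + 1) → (X.residueField v.1.1)ˣ := fun i => Units.mk0 (g' i) (hg'0 i)
  refine ⟨G, ?_, ?_⟩
  · -- at `y`
    have hgen : GenSp f π v.1.1 y := isy_gen f π e m hdim v y hvy hyS hdy
    have hGy : ∀ i, ∃ c : X.presheaf.stalk y, (G i : X.residueField v.1.1) =
        g i * (1 + kA f v.1.1 π ^ M * rho hvy c) := by
      intro i
      obtain ⟨s, hs⟩ := hg' i y hvy hgen
      refine ⟨s, ?_⟩
      rw [if_pos rfl] at hs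
      exact hs
    let φ : MilnorK (X.residueField v.1.1) (m + 1) →+
        Π₀ v : HPts f π (e + 1) (m + 1), AH f π (e + 1) (m + 1) v :=
      DFinsupp.singleAddHom (fun v : HPts f π (e + 1) (m + 1) => AH f π (e + 1) (m + 1) v) v
    have hmem := ok_TELE (X.residueField v.1.1) (m + 1) G g
    have hle : AddSubgroup.closure {z : MilnorK (X.residueField v.1.1) (m + 1) |
        ∃ (c : Fin (m + 1) → (X.residueField v.1.1)ˣ) (i : Fin (m + 1)),
        z = sym c ∧ c i = G i / g i ∧ ∀ j, j ≠ i → c j = G j ∨ c j = g j} ≤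
        (R (m + 1) y).comap φ := by
      rw [AddSubgroup.closure_le]
      rintro z ⟨c, i, rfl, hci, hcj⟩
      have hu : ∃ c' : X.presheaf.stalk y, ((c i : (X.residueField v.1.1)ˣ) : X.residueField v.1.1)
          = 1 + kA f v.1.1 π ^ M * rho hvy c' := by
        obtain ⟨s, hs⟩ := hGy i
        refine ⟨s, ?_⟩
        rw [hci, Units.val_div_eq_div_val, hs, mul_comm, mul_div_assoc, div_self (g i).ne_zero,
          mul_one]
      have hrest : ∀ j : Fin m, ∃ c' : X.presheaf.stalk y,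
          ((c (i.succAbove j) : (X.residueField v.1.1)ˣ) : X.residueField v.1.1) =
            g (i.succAbove j) * (1 + kA f v.1.1 π ^ M * rho hvy c') := by
        intro j
        rcases hcj (i.succAbove j) (Fin.succAbove_ne i j) with h1 | h1
        · rw [h1]
          exact hGy _
        · refine ⟨0, ?_⟩
          rw [h1, map_zero, mul_zero, add_zero, mul_one]
      have h3 := hBy i M (hMy i) y hvy hyS hdy (c i) (fun j => c (i.succAbove j)) hu hrest
      rcases ok_SLOT (X.residueField v.1.1) m c i with h4 | h4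
      · show φ (sym c) ∈ R (m + 1) y
        rw [h4]
        exact h3
      · show φ (sym c) ∈ R (m + 1) y
        rw [h4, map_neg]
        exact neg_mem h3
    exact hle hmem
  · -- at the other points
    intro y' hvy' hS' hd' hne
    have hgen : GenSp f π v.1.1 y' := isy_gen f π e m hdim v y' hvy' hS' hd'
    have hGy : ∀ i, ∃ c : X.presheaf.stalk y', (G i : X.residueField v.1.1) =
        1 + kA f v.1.1 π ^ M * rho hvy' c := by
      intro i
      obtain ⟨s, hs⟩ := hg' i y' hvy' hgen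
      refine ⟨s, ?_⟩
      rw [if_neg hne, one_mul] at hs
      exact hs
    have h3 := hB1 M hMB y' hvy' hS' hd' (G 0) (Fin.tail G) (hGy 0) (fun i => by
      obtain ⟨c, hc⟩ := hGy i.succ
      refine ⟨c, ?_⟩
      rw [Units.val_one, one_mul]
      exact hc)
    rw [cup_sym, Fin.cons_self_tail] at h3
    exact h3

end Pool.Agent.H12.KSJ
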