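import Pool.Agent.H12.KSJ.Abs
import Pool.Agent.H62.KG.Diff
import Pool.Agent.H15.KEW.G4
import Pool.Agent.H17.KW.ResMap

/-!
# Surjectivity of the restriction map: schemes, definitions (helper12)
-/

open CategoryTheory TopologicalSpace Opposite AlgebraicGeometry Limits
open Pool.Agent.H62.MK Pool.Agent.H84.KEW
open Pool.Agent.H17.KW (kap Pts entry column dFam D dD Gersten topSh KSh redSh thick thickι Fsh AbSh)
open Pool.Agent.H12.KG (Sp GenSp kA stA rho projStr)

universe u

namespace Pool.Agent.H12.KSJ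

noncomputable section

section pts

variable {X : Scheme.{u}} {A : Type u} [CommRing A] (f : X ⟶ Spec (CommRingCat.of A)) (π : A)

/-- The horizontal points of codimension `d - s`. -/
abbrev HPts (d s : ℕ) : Type u := {v : Pts X d s // ¬ Sp f π v.1}

/-- The point of a horizontal point. -/
abbrev pH (d s : ℕ) (v : HPts f π d s) : X.toTopCat := v.1.1

/-- The group of a horizontal point. -/
abbrev AH (d s : ℕ) (v : HPts f π d s) : Type u := MilnorK (kap X v.1.1) s

open Classical in
/-- A horizontal family as a family. -/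
def exH (d s : ℕ) : (Π₀ v : HPts f π d s, AH f π d s v) →+
    Π₀ v : Pts X d s, MilnorK (kap X v.1) s :=
  DFinsupp.liftAddHom (fun v => DFinsupp.singleAddHom (fun v : Pts X d s => MilnorK (kap X v.1) s)
    v.1)

open Classical in
/-- The horizontal part of a family. -/
def reH (d s : ℕ) : (Π₀ v : Pts X d s, MilnorK (kap X v.1) s) →+
    Π₀ v : HPts f π d s, AH f π d s v :=
  DFinsupp.subtypeDomainAddMonoidHom (fun v : Pts X d s => MilnorK (kap X v.1) s)
    (fun v : Pts X d s => ¬ Sp f π v.1)

lemma exH_apply (d s : ℕ) (g : Π₀ v : HPts f π d s, AH f π d s v) (v : HPts f π d s) :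
    exH f π d s g v.1 = g v := by
  classical
  unfold exH
  rw [DFinsupp.liftAddHom_apply, DFinsupp.sumAddHom_apply, DFinsupp.sum, DFinsupp.finsetSum_apply]
  by_cases hv : v ∈ g.support
  · rw [Finset.sum_eq_single v]
    · rw [DFinsupp.singleAddHom_apply, DFinsupp.single_eq_same]
    · intro w _ hw
      rw [DFinsupp.singleAddHom_apply, DFinsupp.single_eq_of_ne]
      exact fun h => hw (Subtype.ext h.symm)
    · intro h
      exact absurd hv h
  · rw [DFinsupp.notMem_support_iff.1 hv]
    refine Finset.sum_eq_zero fun w hw => ?_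
    rw [DFinsupp.singleAddHom_apply, DFinsupp.single_eq_of_ne]
    rintro h
    have : v = w := Subtype.ext h
    subst this
    exact hv hw

lemma exH_apply_of_sp (d s : ℕ) (g : Π₀ v : HPts f π d s, AH f π d s v) (v : Pts X d s)
    (hv : Sp f π v.1) : exH f π d s g v = 0 := by
  classical
  unfold exH
  rw [DFinsupp.liftAddHom_apply, DFinsupp.sumAddHom_apply, DFinsupp.sum, DFinsupp.finsetSum_apply]
  refine Finset.sum_eq_zero fun w hw => ?_
  rw [DFinsupp.singleAddHom_apply, DFinsupp.single_eq_of_ne]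
  rintro rfl
  exact w.2 hv

lemma reH_apply (d s : ℕ) (g : Π₀ v : Pts X d s, MilnorK (kap X v.1) s) (v : HPts f π d s) :
    reH f π d s g v = g v.1 := by
  classical
  rfl

/-- The horizontal part of the differential. -/
def dH (d s : ℕ) : (Π₀ v : HPts f π d (s + 1), AH f π d (s + 1) v) →+
    Π₀ v : HPts f π d s, AH f π d s v :=
  (reH f π d s).comp ((dFam X d s).comp (exH f π d (s + 1)))

lemma isLocalHom_reH (d s : ℕ) : IsLocalHom (X := X.toTopCat)
    (fun v : Pts X d s => (v.1 : X)) (pH f π d s) (reH f π d s) := by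
  intro g v hg
  rw [reH_apply]
  exact hg v.1 (specializes_refl _)

/-- The special fibre. -/
def Ysp : Set X.toTopCat := {x : X | Sp f π x}

end pts

/-- The dimension of the closure of a point, for dimension `d + 1` in total. -/
def dl {X : Scheme.{u}} (d : ℕ) (x : X.toTopCat) : ℕ := (d + 1) - (Order.coheight (α := X) x).toNat

section small

variable {X : Scheme.{u}} {A : Type u} [CommRing A] (f : X ⟶ Spec (CommRingCat.of A)) (π : A)

open Classical in
/-- SM: the symbols `{1 + π ^ M c, g_1', .., g_m'}` at `v` lie in the subgroup at `y` for large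
`M`, where `g_i'` is close to `g_i`. -/
def SMs (d : ℕ) (R : ∀ s, X.toTopCat → AddSubgroup (Π₀ v : HPts f π d s, AH f π d s v))
    (m : ℕ) : Prop :=
  ∀ (v : HPts f π d (m + 1)) (y : X) (h : v.1.1 ⤳ y), Sp f π y → dl (X := X) d y = m + 1 →
    ∀ g : Fin m → (X.residueField v.1.1)ˣ, ∃ M : ℕ,
      ∀ (u : (X.residueField v.1.1)ˣ) (g' : Fin m → (X.residueField v.1.1)ˣ),
      (∃ c : X.presheaf.stalk y, (u : X.residueField v.1.1) = 1 + kA f v.1.1 π ^ M * rho h c) →
      (∀ i, ∃ c : X.presheaf.stalk y,
        (g' i : X.residueField v.1.1) = g i * (1 + kA f v.1.1 π ^ M * rho h c)) →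
      DFinsupp.single (β := fun v : HPts f π d (m + 1) => AH f π d (m + 1) v) v (cup u (sym g')) ∈
        R (m + 1) y

/-- The recursion for the subgroups `R`. -/
def Rec (d : ℕ) (R : ∀ s, X.toTopCat → AddSubgroup (Π₀ v : HPts f π d s, AH f π d s v))
    (s : ℕ) : Prop :=
  ∀ y ∈ Ysp f π, dl (X := X) d y = s → R s y =
    (Cond (X := X.toTopCat) (pH f π d) (AH f π d) (Ysp f π) (dl (X := X) d) R (s + 1) y).map
      ((gen (X := X.toTopCat) (pH f π d s) (AH f π d s) y).comp (dH f π d s))

end small

section nu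

variable {X : Scheme.{u}} [IsNoetherian X] {A : Type u} [CommRing A] [IsLocalRing A]
  (f : X ⟶ Spec (CommRingCat.of A)) (π : A)

/-- The kernel of the restriction `K^M_(e+1) → F_n`. -/
abbrev NSh (q e n : ℕ) : AbSh X := kernel (redSh (thickι f n) q (e + 1))

/-- The embedding of the kernel in the sheaf of horizontal families of level `e + 1`. -/
def nuSh (q e n : ℕ) : NSh f q e n ⟶
    (E (X := X.toTopCat) (pH f π (e + 1) (e + 1)) (AH f π (e + 1) (e + 1))).sheaf :=
  kernel.ι _ ≫ topSh X (e + 1) ≫ mapE (reH f π (e + 1) (e + 1)) (isLocalHom_reH f π (e + 1) (e + 1))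

/-- The subgroups of germs of the kernel. -/
abbrev nuG (q e n : ℕ) (y : X.toTopCat) :
    AddSubgroup (Π₀ v : HPts f π (e + 1) (e + 1), AH f π (e + 1) (e + 1) v) :=
  nuGerms (X := X.toTopCat) (pH f π (e + 1) (e + 1)) (AH f π (e + 1) (e + 1)) (nuSh f π q e n) y

end nu

end

end Pool.Agent.H12.KSJ
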