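import Pool.Agent.H12.KSJ.Sch
import Pool.Agent.H19.KN.All

/-!
# Surjectivity of the restriction map: targets (helper12)
-/

open CategoryTheory TopologicalSpace Opposite AlgebraicGeometry Limits
open Pool.Agent.H62.MK Pool.Agent.H84.KEW Pool.Agent.H19.KN
open Pool.Agent.H17.KW (kap Pts entry column dFam D dD Gersten topSh KSh redSh thick thickι Fsh AbSh
  cycK)
open Pool.Agent.H12.KG (Sp GenSp kA stA rho projStr)

universe u

namespace Pool.Agent.H12.KSJ

noncomputable section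

/-! ### Local algebra -/

/-- NRM1: the norm of a trivial extension. -/
def T_NRM1 : Prop :=
  ∀ (F E : Type u) [Field F] [Field E] [Algebra F E], Function.Bijective (algebraMap F E) →
    ∀ (n : ℕ) (y : MilnorK F n), norm F E n (Pool.Agent.H62.MK.map (algebraMap F E) n y) = y

/-- RDV: the residue map of a discrete valuation ring. -/
def T_RDV : Prop :=
  ∀ (O F : Type u) [CommRing O] [IsLocalRing O] [Field F] [Algebra O F],
    IsDiscreteValuationRing (algebraMap O F).range →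
    (∀ z : F, ∃ a b : O, algebraMap O F b ≠ 0 ∧ z * algebraMap O F b = algebraMap O F a) →
    ∀ (t : Fˣ) (t' : (algebraMap O F).range), (t' : F) = t → Irreducible t' →
    ∀ (n : ℕ) (a : Fin n → Oˣ),
      gerstenResidue O F n (cup t (sym fun i => Units.map (algebraMap O F).toMonoidHom (a i))) =
        sym fun i => Units.map (IsLocalRing.residue O).toMonoidHom (a i)

/-- R1U: the residue of a symbol with an entry `1 + t`, `t` in the maximal ideal, is zero. -/
def T_R1U : Prop :=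
  ∀ (O F : Type u) [CommRing O] [IsLocalRing O] [Field F] [Algebra O F] (n : ℕ)
    (a : Fin (n + 1) → Fˣ) (i : Fin (n + 1)) (t : O), t ∈ IsLocalRing.maximalIdeal O →
    (a i : F) = 1 + algebraMap O F t → gerstenResidue O F n (sym a) = 0

/-- SMA: small symbols at a discrete valuation ring. -/
def T_SMA : Prop :=
  ∀ (O F : Type u) [CommRing O] [IsLocalRing O] [Field F] [Algebra O F],
    IsDiscreteValuationRing (algebraMap O F).range →
    (∀ z : F, ∃ a b : O, algebraMap O F b ≠ 0 ∧ z * algebraMap O F b = algebraMap O F a) →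
    ∀ π ∈ IsLocalRing.maximalIdeal O, algebraMap O F π ≠ 0 →
    ∀ (q n e : ℕ), 1 ≤ q → 1 ≤ n → ∀ H : AddSubgroup (MilnorK F (e + 1)),
    (∀ (u : Fˣ) (c : O) (b : Fin e → Oˣ), (u : F) = 1 + algebraMap O F (π ^ n * c) →
      cup u (sym fun i => Units.map (algebraMap O F).toMonoidHom (b i)) ∈ H) →
    (∀ ξ : MilnorK F (e + 1), gerstenResidue O F e ξ = 0 → q • ξ ∈ H) →
    ∃ M : ℕ, ∀ (u : Fˣ) (c : O), (u : F) = 1 + algebraMap O F (π ^ M * c) →
      ∀ g : Fin e → Fˣ, cup u (sym g) ∈ H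

/-! ### Points -/

/-- FRAC: the residue field at a generization is a field of fractions. -/
def T_FRAC : Prop :=
  ∀ (X : Scheme.{u}) (v y : X) (h : v ⤳ y) (z : X.residueField v),
    ∃ a b : X.presheaf.stalk y, rho h b ≠ 0 ∧ z * rho h b = rho h a

/-- PIG: a power of `π` is a multiple of a given nonzero element if `y` has codimension one
over `v`. -/
def T_PIG : Prop :=
  ∀ (A : Type u) [CommRing A] (X : Scheme.{u}) (f : X ⟶ Spec (CommRingCat.of A)) (π : A)
    (v y : X) (h : v ⤳ y), ¬ Sp f π v → Sp f π y → Order.coheight y < ⊤ →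
    Order.coheight y ≤ Order.coheight v + 1 → ∀ G : X.presheaf.stalk y, rho h G ≠ 0 →
    ∃ (M : ℕ) (c : X.presheaf.stalk y), kA f v π ^ M = rho h (G * c)

/-- BADG: an element of the local ring at `y` which vanishes at the bad points and does not vanish
at `v`. -/
def T_BADG : Prop :=
  ∀ (X : Scheme.{u}) [IsNoetherian X] (d s : ℕ) (w : Pts X d (s + 1)) (v : Pts X d s) (y : X)
    (hv : v.1 ⤳ y) (k : ℕ) (a : Fin k → (kap X w.1)ˣ),
    ∃ G : X.presheaf.stalk y, rho hv G ≠ 0 ∧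
      ∀ (v' : Pts X d s) (h' : v'.1 ⤳ y), v' ≠ v → (∃ i, v'.1 ∈ bad w.1 (a i)) → rho h' G = 0

/-- DLX: the function `dl`. -/
def T_DLX : Prop :=
  ∀ (A : Type u) [CommRing A] (X : Scheme.{u}) (f : X ⟶ Spec (CommRingCat.of A)) (π : A) (e : ℕ),
    (∀ x : X, Order.coheight x ≤ e + 2) →
    (∀ x y : X, x ⤳ y → x ≠ y → dl (X := X) (e + 1) y < dl (X := X) (e + 1) x) ∧
    (∀ s (v : Pts X (e + 1) s), dl (X := X) (e + 1) v.1 = s + 1) ∧
    (∀ (s : ℕ) (x : X), s ≤ e + 1 → dl (X := X) (e + 1) x = s → Order.coheight x + s = (e + 2 : ℕ)) ∧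
    IsClosed (Ysp f π)

/-! ### The complex of horizontal families -/

/-- LOCDD: the horizontal differential is local and has square zero. -/
def T_LOCDD : Prop :=
  ∀ (A : Type u) [CommRing A] (X : Scheme.{u}) [IsNoetherian X] (f : X ⟶ Spec (CommRingCat.of A))
    (π : A) (e : ℕ), Gersten X e →
    (∀ s, IsLocalHom (X := X.toTopCat) (pH f π (e + 1) (s + 1)) (pH f π (e + 1) s)
      (dH f π (e + 1) s)) ∧
    (∀ s g, dFam X (e + 1) s (dFam X (e + 1) (s + 1) g) = 0) ∧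
    ∀ s g, dH f π (e + 1) s (dH f π (e + 1) (s + 1) g) = 0

/-- HEX: exactness of the complex of horizontal families at the points outside the special
fibre. -/
def T_HEX : Prop :=
  ∀ (A : Type u) [CommRing A] (X : Scheme.{u}) [IsNoetherian X] (f : X ⟶ Spec (CommRingCat.of A))
    (π : A) (e : ℕ), Gersten X e → ∀ x : X.toTopCat, ¬ Sp f π x →
    (∀ s, s < e → ∀ g : Π₀ v : HPts f π (e + 1) (s + 1), AH f π (e + 1) (s + 1) v,
      gen (X := X.toTopCat) (pH f π (e + 1) (s + 1)) (AH f π (e + 1) (s + 1)) x g = g →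
      gen (X := X.toTopCat) (pH f π (e + 1) s) (AH f π (e + 1) s) x (dH f π (e + 1) s g) = 0 →
      ∃ g', gen (X := X.toTopCat) (pH f π (e + 1) (s + 1)) (AH f π (e + 1) (s + 1)) x
        (dH f π (e + 1) (s + 1) g') = g) ∧
    ∀ g : Π₀ v : HPts f π (e + 1) 0, AH f π (e + 1) 0 v,
      gen (X := X.toTopCat) (pH f π (e + 1) 0) (AH f π (e + 1) 0) x g = g →
      ∃ g', gen (X := X.toTopCat) (pH f π (e + 1) 0) (AH f π (e + 1) 0) x
        (dH f π (e + 1) 0 g') = g

/-- NUX: the embedding of the kernel of the restriction map in the sheaf of horizontal families. -/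
def T_NUX : Prop :=
  ∀ (A : Type u) [CommRing A] [IsDomain A] [IsDiscreteValuationRing A]
    (X : Scheme.{u}) [IsNoetherian X] (f : X ⟶ Spec (CommRingCat.of A)) (π : A), Irreducible π →
    ∀ (e q n : ℕ), 1 ≤ n → (∀ v : Pts X (e + 1) (e + 1), ¬ Sp f π v.1) → Gersten X e →
    Mono (nuSh f π q e n) ∧
    (∀ (U : Opens X.toTopCat) (c : (NSh f q e n).obj.obj (op U)), ∀ x ∈ U,
      gen (X := X.toTopCat) (pH f π (e + 1) e) (AH f π (e + 1) e) x (dH f π (e + 1) e
        (famOf (X := X.toTopCat) (pH f π (e + 1) (e + 1)) (AH f π (e + 1) (e + 1))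
          (nuSh f π q e n) c)) = 0) ∧
    ∀ x : X.toTopCat, ¬ Sp f π x →
      ∀ g : Π₀ v : HPts f π (e + 1) (e + 1), AH f π (e + 1) (e + 1) v,
      gen (X := X.toTopCat) (pH f π (e + 1) (e + 1)) (AH f π (e + 1) (e + 1)) x g = g →
      gen (X := X.toTopCat) (pH f π (e + 1) e) (AH f π (e + 1) e) x (dH f π (e + 1) e g) = 0 →
      g ∈ nuG f π q e n x

/-- NSM: symbols `{1 + π ^ n c, b_1, ..}` of units of the local ring are germs of the kernel. -/
def T_NSM : Prop :=
  ∀ (A : Type u) [CommRing A] [IsDomain A] [IsDiscreteValuationRing A]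
    (X : Scheme.{u}) [IsNoetherian X] (f : X ⟶ Spec (CommRingCat.of A)) (π : A), Irreducible π →
    ∀ (e q n : ℕ) (y : X) (c : X.presheaf.stalk y) (u : (X.presheaf.stalk y)ˣ)
      (b : Fin e → (X.presheaf.stalk y)ˣ), (u : X.presheaf.stalk y) = 1 + stA f y π ^ n * c →
    ∃ g ∈ nuG f π q e n y, ∀ (v : HPts f π (e + 1) (e + 1)) (h : v.1.1 ⤳ y),
      g v = Pool.Agent.H62.MK.map (rho h) (e + 1) (sym (Fin.cons u b : Fin (e + 1) → _))

/-- NQX: `q` times a germ of `K` is a germ of the kernel. -/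
def T_NQX : Prop :=
  ∀ (A : Type u) [CommRing A] [IsDomain A] [IsDiscreteValuationRing A]
    (X : Scheme.{u}) [IsNoetherian X] (f : X ⟶ Spec (CommRingCat.of A)) (π : A) (e q n : ℕ),
    Gersten X e → ∀ (y : X.toTopCat)
    (g : Π₀ v : HPts f π (e + 1) (e + 1), AH f π (e + 1) (e + 1) v),
    gen (X := X.toTopCat) (pH f π (e + 1) (e + 1)) (AH f π (e + 1) (e + 1)) y g = g →
    gen (X := X.toTopCat) (fun v : Pts X (e + 1) e => (v.1 : X)) (fun v => MilnorK (kap X v.1) e) y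
      (dFam X (e + 1) e (exH f π (e + 1) (e + 1) g)) = 0 →
    q • g ∈ nuG f π q e n y

/-! ### The conditions -/

/-- SMT: (SM) at the top level. -/
def T_SMT : Prop :=
  ∀ (A : Type u) [CommRing A] [IsDomain A] [IsDiscreteValuationRing A]
    (X : Scheme.{u}) [IsNoetherian X] (f : X ⟶ Spec (CommRingCat.of A)) (π : A), Irreducible π →
    ∀ (e q n : ℕ), 1 ≤ q → 1 ≤ n → Gersten X e → (∀ x : X, Order.coheight x ≤ e + 2) →
    (∀ y : X, Order.coheight y = 1 → ∀ (w : X) (h : w ⤳ y), w ≠ y →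
      IsDiscreteValuationRing (rho h).range ∧ ∀ w' : X, w' ⤳ y → w' ≠ y → w' = w) →
    ∀ R : ∀ s, X.toTopCat → AddSubgroup (Π₀ v : HPts f π (e + 1) s, AH f π (e + 1) s v),
      (∀ y, R (e + 1) y = nuG f π q e n y) → SMs f π (e + 1) R e

/-- SMS: (SM) goes down one level. -/
def T_SMS : Prop :=
  ∀ (A : Type u) [CommRing A] (X : Scheme.{u}) [IsNoetherian X] (f : X ⟶ Spec (CommRingCat.of A))
    (π : A) (e m : ℕ), m < e → (∀ x : X, Order.coheight x ≤ e + 2) →
    (∀ v : HPts f π (e + 1) (m + 1), ∃ (w : HPts f π (e + 1) (m + 2)) (h : w.1.1 ⤳ v.1.1),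
      IsDiscreteValuationRing (rho h).range) →
    ∀ R : ∀ s, X.toTopCat → AddSubgroup (Π₀ v : HPts f π (e + 1) s, AH f π (e + 1) s v),
      Rec f π (e + 1) R (m + 1) → SMs f π (e + 1) R (m + 1) → SMs f π (e + 1) R m

/-- Weak approximation at the generic points of the special fibres of closures of points. -/
def WAp {A : Type u} [CommRing A] {X : Scheme.{u}} (f : X ⟶ Spec (CommRingCat.of A)) (π : A) :
    Prop :=
  ∀ n : ℕ, 1 ≤ n → ∀ w : X, ¬ Sp f π w → ∀ H : X → X.residueField w, (∀ y, H y ≠ 0) →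
    ∃ h : X.residueField w, h ≠ 0 ∧ ∀ (y : X) (hy : w ⤳ y), GenSp f π w y →
      ∃ s : X.presheaf.stalk y, h = H y * (1 + kA f w π ^ n * rho hy s)

/-- ISY: isolation for one symbol at one point. -/
def T_ISY : Prop :=
  ∀ (A : Type u) [CommRing A] (X : Scheme.{u}) [IsNoetherian X] (f : X ⟶ Spec (CommRingCat.of A))
    (π : A) (e m : ℕ), m ≤ e → (∀ x : X, Order.coheight x ≤ e + 2) → WAp f π →
    ∀ R : ∀ s, X.toTopCat → AddSubgroup (Π₀ v : HPts f π (e + 1) s, AH f π (e + 1) s v),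
      SMs f π (e + 1) R m → ∀ [DecidableEq (HPts f π (e + 1) (m + 1))]
      (v : HPts f π (e + 1) (m + 1)) (y : X) (_ : v.1.1 ⤳ y), Sp f π y →
      dl (X := X) (e + 1) y = m + 1 → ∀ g : Fin (m + 1) → (X.residueField v.1.1)ˣ,
      ∃ g' : Fin (m + 1) → (X.residueField v.1.1)ˣ,
        DFinsupp.single (β := fun v : HPts f π (e + 1) (m + 1) => AH f π (e + 1) (m + 1) v) v
          (sym g' - sym g) ∈ R (m + 1) y ∧
        ∀ y' : X, v.1.1 ⤳ y' → Sp f π y' → dl (X := X) (e + 1) y' = m + 1 → y' ≠ y →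
          DFinsupp.single (β := fun v : HPts f π (e + 1) (m + 1) => AH f π (e + 1) (m + 1) v) v
            (sym g') ∈ R (m + 1) y'

/-- ISO: isolation. -/
def T_ISO : Prop :=
  ∀ (A : Type u) [CommRing A] (X : Scheme.{u}) [IsNoetherian X] (f : X ⟶ Spec (CommRingCat.of A))
    (π : A) (e m : ℕ), m ≤ e → (∀ x : X, Order.coheight x ≤ e + 2) → WAp f π →
    ∀ R : ∀ s, X.toTopCat → AddSubgroup (Π₀ v : HPts f π (e + 1) s, AH f π (e + 1) s v),
      SMs f π (e + 1) R m → ∀ y ∈ Ysp f π, dl (X := X) (e + 1) y = m + 1 →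
      ∀ g : Π₀ v : HPts f π (e + 1) (m + 1), AH f π (e + 1) (m + 1) v, ∃ g',
        gen (X := X.toTopCat) (pH f π (e + 1) (m + 1)) (AH f π (e + 1) (m + 1)) y (g' - g) ∈
          R (m + 1) y ∧
        ∀ y' ∈ Ysp f π, dl (X := X) (e + 1) y' = m + 1 → y' ≠ y →
          gen (X := X.toTopCat) (pH f π (e + 1) (m + 1)) (AH f π (e + 1) (m + 1)) y' g' ∈
            R (m + 1) y'

/-- ISZ: isolation at level zero. -/
def T_ISZ : Prop :=
  ∀ (A : Type u) [CommRing A] (X : Scheme.{u}) [IsNoetherian X] (f : X ⟶ Spec (CommRingCat.of A))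
    (π : A) (e : ℕ), (∀ x : X, Order.coheight x ≤ e + 2) →
    (∀ z : X, ¬ Sp f π z → (∀ x : X, z ⤳ x → x ≠ z → IsClosed ({x} : Set X)) →
      ∃! x : X, z ⤳ x ∧ IsClosed ({x} : Set X)) →
    ∀ R : ∀ s, X.toTopCat → AddSubgroup (Π₀ v : HPts f π (e + 1) s, AH f π (e + 1) s v),
      ∀ y ∈ Ysp f π, dl (X := X) (e + 1) y = 0 →
      ∀ g : Π₀ v : HPts f π (e + 1) 0, AH f π (e + 1) 0 v, ∃ g',
        gen (X := X.toTopCat) (pH f π (e + 1) 0) (AH f π (e + 1) 0) y (g' - g) ∈ R 0 y ∧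
        ∀ y' ∈ Ysp f π, dl (X := X) (e + 1) y' = 0 → y' ≠ y →
          gen (X := X.toTopCat) (pH f π (e + 1) 0) (AH f π (e + 1) 0) y' g' ∈ R 0 y'

/-! ### Cohomology -/

/-- SJ1: surjectivity in cohomology. -/
def T_SJ1 : Prop :=
  ∀ (X : TopCat.{u}) (K F : Shf X) (ρ : K ⟶ F) [Epi ρ] (m : ℕ),
    Subsingleton (Sheaf.H (kernel ρ) (m + 1)) → Function.Surjective (Sheaf.H.map ρ m)

/-- CYS: every class in `H^(e+1)(X, K)` is the class of a cycle. -/
def T_CYS : Prop :=
  ∀ (X : Scheme.{u}) [IsNoetherian X] (e : ℕ) (h : Gersten X e), Function.Surjective (cycK h)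

end

end Pool.Agent.H12.KSJ
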